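import Pool.Agent.Helper38.MS.Defs
import Pool.Agent.Helper6.MC.PumpM

/-!
# MS1: the game for monadic second-order formulas, blocks with a group of automorphisms
-/

set_option autoImplicit false

namespace Pool.Agent.Helper38.MS

open FirstOrder Pool.Agent.Helper20.Spectra Pool.Agent.Helper31.QD Pool.Agent.Helper38.MC
open Pool.Agent.Helper29.MW (MFm MSat)
open Pool.Agent.Helper6.MC (LI LI_ext Sim split)

variable {S : Type} {ar : S → ℕ} {N T ι κ : Type}

/-- invariance under automorphisms -/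
theorem holds_aut {M : Type} (I : Interp S ar M) (g : Equiv.Perm M) (hg : Au I g) {k m : ℕ} (φ : MFm S ar k m) :
    ∀ (v : Fin k → M) (V : Fin m → Set M), φ.Holds I (g ∘ v) V ↔ φ.Holds I v (fun s => g ⁻¹' V s) := by
  induction φ with
  | eq i j => exact fun v V => g.injective.eq_iff
  | rel s f => exact fun v V => hg s (fun i => v (f i))
  | mem i j => exact fun v V => Iff.rfl
  | not φ ih => exact fun v V => not_congr (ih v V)
  | and φ ψ ih ih' => exact fun v V => and_congr (ih v V) (ih' v V)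
  | ex φ ih =>
    intro v V
    have key : ∀ y : M, φ.Holds I (Fin.cons (g y) (g ∘ v)) V ↔ φ.Holds I (Fin.cons y v) (fun s => g ⁻¹' V s) := by
      intro y
      rw [← ih]
      have e : (Fin.cons (g y) (g ∘ v) : Fin (_ + 1) → M) = g ∘ (Fin.cons y v : Fin (_ + 1) → M) := by
        funext a
        refine Fin.cases rfl (fun a => rfl) a
      rw [e]
    constructor
    · rintro ⟨x, hx⟩
      refine ⟨g.symm x, (key _).1 ?_⟩
      rwa [Equiv.apply_symm_apply]
    · rintro ⟨y, hy⟩
      exact ⟨g y, (key y).2 hy⟩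
  | exSet φ ih =>
    intro v V
    have key : ∀ X : Set M, φ.Holds I (g ∘ v) (Fin.cons X V) ↔
        φ.Holds I v (Fin.cons (g ⁻¹' X) (fun s => g ⁻¹' V s)) := by
      intro X
      rw [ih]
      have e : (fun s => g ⁻¹' (Fin.cons X V : Fin (_ + 1) → Set M) s) =
          (Fin.cons (g ⁻¹' X) (fun s => g ⁻¹' V s) : Fin (_ + 1) → Set M) := by
        funext a
        refine Fin.cases rfl (fun a => rfl) a
      rw [e]
    constructor
    · rintro ⟨X, hX⟩
      exact ⟨_, (key X).1 hX⟩
    · rintro ⟨Y, hY⟩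
      refine ⟨g '' Y, (key _).2 ?_⟩
      rwa [Set.preimage_image_eq _ g.injective]

/-- acting inside of the blocks -/
def bi (γ : ι → Equiv.Perm T) : Equiv.Perm (N ⊕ ι × T) where
  toFun z := z.elim Sum.inl (fun p => Sum.inr (p.1, γ p.1 p.2))
  invFun z := z.elim Sum.inl (fun p => Sum.inr (p.1, (γ p.1).symm p.2))
  left_inv := by
    rintro (y | ⟨i, x⟩)
    · rfl
    · show Sum.inr (i, (γ i).symm (γ i x)) = _
      rw [Equiv.symm_apply_apply]
  right_inv := by
    rintro (y | ⟨i, x⟩)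
    · rfl
    · show Sum.inr (i, γ i ((γ i).symm x)) = _
      rw [Equiv.apply_symm_apply]

lemma bi_inl (γ : ι → Equiv.Perm T) (y : N) : bi γ (Sum.inl y) = (Sum.inl y : N ⊕ ι × T) := rfl

lemma bi_inr (γ : ι → Equiv.Perm T) (i : ι) (x : T) : bi γ (Sum.inr (i, x)) = (Sum.inr (i, γ i x) : N ⊕ ι × T) := rfl

/-- `Γ` acts inside of the blocks by automorphisms -/
def GI (Γ : Subgroup (Equiv.Perm T)) (R : Interp S ar (N ⊕ ι × T)) : Prop :=
  ∀ γ : ι → Equiv.Perm T, (∀ i, γ i ∈ Γ) → Au R (bi γ)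

/-- from single blocks -/
theorem GI_of [Finite ι] {Γ : Subgroup (Equiv.Perm T)} {R : Interp S ar (N ⊕ ι × T)}
    (h : ∀ γ ∈ Γ, ∀ (i : ι) (σ : Equiv.Perm (N ⊕ ι × T)), (∀ x, σ (Sum.inr (i, x)) = Sum.inr (i, γ x)) →
      (∀ z, (∀ x, Sum.inr (i, x) ≠ z) → σ z = z) → Au R σ) : GI Γ R := by
  classical
  have := Fintype.ofFinite ι
  intro γ hγ
  have key : ∀ J : Finset ι, Au R (bi (fun i => if i ∈ J then γ i else 1)) := by
    intro J
    induction J using Finset.induction_on with
    | empty =>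
      have e : (bi (fun i => if i ∈ (∅ : Finset ι) then γ i else 1) : Equiv.Perm (N ⊕ ι × T)) = 1 := by
        ext z
        rcases z with y | ⟨i, x⟩
        · rfl
        · rw [bi_inr]
          simp
      rw [e]
      exact fun _ _ => Iff.rfl
    | insert j J hj ih =>
      have h1 : Au R (bi (fun i => if i = j then γ j else 1)) := by
        refine h (γ j) (hγ j) j _ (fun x => ?_) (fun z hz => ?_)
        · rw [bi_inr, if_pos rfl]
        · rcases z with y | ⟨i, x⟩
          · rfl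
          · rw [bi_inr, if_neg]
            · rfl
            · rintro rfl
              exact hz x rfl
      have e : (bi (fun i => if i ∈ insert j J then γ i else 1) : Equiv.Perm (N ⊕ ι × T)) =
          bi (fun i => if i = j then γ j else 1) * bi (fun i => if i ∈ J then γ i else 1) := by
        ext z
        rw [Equiv.Perm.mul_apply]
        rcases z with y | ⟨i, x⟩
        · rfl
        · rw [bi_inr, bi_inr, bi_inr]
          by_cases hi : i = j
          · subst hi
            rw [if_pos (Finset.mem_insert_self _ _), if_pos rfl, if_neg hj]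
            rfl
          · rw [if_neg hi]
            by_cases hi2 : i ∈ J
            · rw [if_pos (Finset.mem_insert_of_mem hi2), if_pos hi2]
              rfl
            · rw [if_neg (by rw [Finset.mem_insert]; tauto), if_neg hi2]
              rfl
      rw [e]
      exact h1.mul ih
  have e : (bi γ : Equiv.Perm (N ⊕ ι × T)) = bi (fun i => if i ∈ (Finset.univ : Finset ι) then γ i else 1) := by
    congr 1
    funext i
    rw [if_pos (Finset.mem_univ i)]
  rw [e]
  exact key _

/-- the blocks of `R'` have the same automorphisms -/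
theorem GI_LI [Finite ι] [Nonempty ι] [Nonempty κ] {r : ℕ} (har : ∀ s, ar s ≤ r) {Γ : Subgroup (Equiv.Perm T)} {R : Interp S ar (N ⊕ ι × T)}
    {R' : Interp S ar (N ⊕ κ × T)} (hL : LI R R') (h : GI Γ R) (hr : r ≤ Nat.card ι) : GI Γ R' := by
  classical
  have := Fintype.ofFinite ι
  intro γ hγ s t
  -- the used blocks
  have hfin : (used t).Finite := by
    have : used t ⊆ Set.range (fun a : Fin (ar s) => (t a).elim (fun _ => Classical.arbitrary κ) Prod.fst) := by
      rintro i ⟨a, x, ha⟩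
      refine ⟨a, ?_⟩
      show (t a).elim _ _ = i
      rw [ha]
      rfl
    exact (Set.finite_range _).subset this
  have hcard : (used t).ncard ≤ Nat.card ι := by
    have h1 : used t ⊆ Set.range (fun a : Fin (ar s) => (t a).elim (fun _ => Classical.arbitrary κ) Prod.fst) := by
      rintro i ⟨a, x, ha⟩
      refine ⟨a, ?_⟩
      show (t a).elim _ _ = i
      rw [ha]
      rfl
    have h2 := Set.ncard_le_ncard h1 (Set.finite_range _)
    have h3 : (Set.range (fun a : Fin (ar s) => (t a).elim (fun _ => Classical.arbitrary κ) Prod.fst)).ncard ≤ ar s := by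
      rw [← Set.image_univ]
      refine (Set.ncard_image_le (Set.toFinite _)).trans ?_
      rw [Set.ncard_univ, Nat.card_eq_fintype_card, Fintype.card_fin]
    exact h2.trans (h3.trans ((har s).trans hr))
  obtain ⟨g, hg⟩ : ∃ g : κ → ι, Set.InjOn g (used t) := by
    have h4 : Nat.card (used t) ≤ Nat.card ι := hcard
    have : Finite (used t) := hfin
    have := Fintype.ofFinite (used t)
    rw [Nat.card_eq_fintype_card, Nat.card_eq_fintype_card] at h4
    obtain ⟨f⟩ := Function.Embedding.nonempty_of_card_le h4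
    refine ⟨fun i => if hi : i ∈ used t then f ⟨i, hi⟩ else Classical.arbitrary ι, ?_⟩
    intro i hi j hj hij
    simp only [dif_pos hi, dif_pos hj] at hij
    exact congrArg Subtype.val (f.injective hij)
  have e0 : ∀ i ∈ used t, Function.invFunOn g (used t) (g i) = i := fun i hi =>
    hg (Function.invFunOn_mem ⟨i, hi, rfl⟩) hi (Function.invFunOn_eq ⟨i, hi, rfl⟩)
  have hu : used (bi γ ∘ t) ⊆ used t := by
    rintro i ⟨a, x, ha⟩
    have ha' : bi γ (t a) = Sum.inr (i, x) := ha
    rcases e : t a with y | ⟨j, z⟩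
    · rw [e, bi_inl] at ha'
      exact absurd ha' (by simp)
    · rw [e, bi_inr] at ha'
      have := Sum.inr_injective ha'
      rw [Prod.ext_iff] at this
      have hj : j = i := this.1
      subst hj
      exact ⟨a, z, e⟩
  have h1 := hL.symm s (bi γ ∘ t) g (hg.mono hu)
  have h2 := hL.symm s t g hg
  rw [← h1, ← h2]
  have e1 : mp g ∘ (bi γ ∘ t) = bi (fun i => γ (Function.invFunOn g (used t) i)) ∘ (mp g ∘ t) := by
    funext a
    show mp g (bi γ (t a)) = bi _ (mp g (t a))
    rcases e : t a with y | ⟨j, z⟩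
    · rfl
    · show (Sum.inr (g j, γ j z) : N ⊕ ι × T) = Sum.inr (g j, γ (Function.invFunOn g (used t) (g j)) z)
      rw [e0 j ⟨a, z, e⟩]
  rw [e1]
  exact h (fun i => γ (Function.invFunOn g (used t) i)) (fun i => hγ _) s (mp g ∘ t)

/-! ### The colourings of a block -/

/-- the stabiliser of the sets so far -/
def St {m : ℕ} (Γ : Subgroup (Equiv.Perm T)) (p : Fin m → T → Prop) : Setoid (T → Bool) where
  r τ τ' := ∃ γ ∈ Γ, (∀ s x, p s (γ x) ↔ p s x) ∧ τ' = τ ∘ γ
  iseqv := by
    refine ⟨fun τ => ⟨1, Γ.one_mem, fun _ _ => Iff.rfl, rfl⟩, ?_, ?_⟩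
    · rintro τ τ' ⟨γ, hγ, hp, rfl⟩
      refine ⟨γ⁻¹, Γ.inv_mem hγ, fun s x => ?_, ?_⟩
      · rw [← hp s (γ⁻¹ x), show γ (γ⁻¹ x) = x from γ.apply_symm_apply x]
      · funext x
        show τ x = τ (γ (γ⁻¹ x))
        rw [show γ (γ⁻¹ x) = x from γ.apply_symm_apply x]
    · rintro τ τ' τ'' ⟨γ, hγ, hp, rfl⟩ ⟨δ, hδ, hq, rfl⟩
      refine ⟨γ * δ, Γ.mul_mem hγ hδ, fun s x => ?_, rfl⟩
      rw [Equiv.Perm.mul_apply, hp, hq]

theorem card_St {m c : ℕ} [Finite T] (hm : m + 1 ≤ c) (Γ : Subgroup (Equiv.Perm T)) (p : Fin m → T → Prop) :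
    Nat.card (Quotient (St Γ p)) ≤ oc c Γ := by
  classical
  have := Fintype.ofFinite T
  unfold oc
  let F : Quotient (St Γ p) → (T → Fin c → Bool) := fun q x j =>
    if h : (j : ℕ) < m then decide (p ⟨j, h⟩ x) else if (j : ℕ) = m then q.out x else false
  apply Nat.card_le_card_of_injective (fun q => Quotient.mk (ocS c Γ) (F q))
  intro q q' h
  obtain ⟨γ, hγ, h1⟩ := Quotient.exact h
  rw [← Quotient.out_eq q, ← Quotient.out_eq q']
  apply Quotient.sound
  refine ⟨γ, hγ, fun s x => ?_, ?_⟩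
  · have h2 := congrFun (congrFun h1 x) ⟨s, by omega⟩
    have h3 : F q' x ⟨s, by omega⟩ = decide (p s x) := by
      show (if h : (s : ℕ) < m then decide (p ⟨s, h⟩ x) else _) = _
      rw [dif_pos s.2]
    have h4 : F q (γ x) ⟨s, by omega⟩ = decide (p s (γ x)) := by
      show (if h : (s : ℕ) < m then decide (p ⟨s, h⟩ (γ x)) else _) = _
      rw [dif_pos s.2]
    have h5 : decide (p s x) = decide (p s (γ x)) := h3.symm.trans (h2.trans h4)
    exact (decide_eq_decide.1 h5).symm
  · funext x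
    have h2 := congrFun (congrFun h1 x) ⟨m, by omega⟩
    have h3 : F q' x ⟨m, by omega⟩ = q'.out x := by
      show (if h : m < m then _ else if m = m then q'.out x else false) = _
      rw [dif_neg (lt_irrefl m), if_pos rfl]
    have h4 : F q (γ x) ⟨m, by omega⟩ = q.out (γ x) := by
      show (if h : m < m then _ else if m = m then q.out (γ x) else false) = _
      rw [dif_neg (lt_irrefl m), if_pos rfl]
    exact h3.symm.trans (h2.trans h4)

theorem two_le_oc {c : ℕ} (hc : 1 ≤ c) [Finite T] [Nonempty T] (Γ : Subgroup (Equiv.Perm T)) : 2 ≤ oc c Γ := by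
  classical
  have := Fintype.ofFinite T
  unfold oc
  have h1 : Function.Injective (fun b : Bool => Quotient.mk (ocS c Γ) (fun (_ : T) (_ : Fin c) => b)) := by
    intro b b' h
    obtain ⟨γ, -, h1⟩ := Quotient.exact h
    exact (congrFun (congrFun h1 (Classical.arbitrary T)) ⟨0, hc⟩).symm
  have h2 := Nat.card_le_card_of_injective _ h1
  rwa [Nat.card_eq_fintype_card, Fintype.card_bool] at h2

section

variable {K k m : ℕ} {v : Fin k → N ⊕ ι × T} {V : Fin m → Set (N ⊕ ι × T)}
  {v' : Fin k → N ⊕ κ × T} {V' : Fin m → Set (N ⊕ κ × T)}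

/-- the step for a set variable -/
theorem set_stepG {c : ℕ} (hm : m + 1 ≤ c) [Finite ι] [Finite κ] [Finite T] [Nonempty T] (hK : 1 ≤ K) (Γ : Subgroup (Equiv.Perm T))
    (h : Sim (oc c Γ * K) v V v' V') (X : Set (N ⊕ ι × T)) :
    ∃ γ : ι → Equiv.Perm T, (∀ i, γ i ∈ Γ) ∧ bi γ ∘ v = v ∧ (∀ s, bi γ ⁻¹' V s = V s) ∧
    ∃ X' : Set (N ⊕ κ × T), Sim K v (Fin.cons (bi γ ⁻¹' X) V) v' (Fin.cons X' V') := by
  classical
  have := Fintype.ofFinite T
  obtain ⟨C, col, col', pe, ps, h1, h2, h3, h4, h5, h6, h7⟩ := h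
  -- the large classes
  let big : C → Prop := fun c₀ => Nat.card {i // col i = c₀} ≠ Nat.card {i // col' i = c₀}
  have hbig : ∀ c₀, big c₀ → oc c Γ * K ≤ Nat.card {i // col i = c₀} ∧ oc c Γ * K ≤ Nat.card {i // col' i = c₀} := by
    intro c₀ hb
    rcases h1 c₀ with h | h
    · exact absurd h hb
    · exact h
  let τ : ι → (T → Bool) := fun i x => decide (Sum.inr (i, x) ∈ X)
  have hγ0 : ∀ i : ι, ∃ γ : Equiv.Perm T, γ ∈ Γ ∧ (∀ s x, ps (col i) s (γ x) ↔ ps (col i) s x) ∧
      (Quotient.mk (St Γ (ps (col i))) (τ i)).out = τ i ∘ γ := by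
    intro i
    exact (Quotient.mk_out (s := St Γ (ps (col i))) (τ i)) |> fun h => by
      obtain ⟨γ, hγ, hp, he⟩ := Setoid.symm' _ h
      exact ⟨γ, hγ, hp, he⟩
  choose γ0 hγ1 hγ2 hγ3 using hγ0
  let γ : ι → Equiv.Perm T := fun i => if big (col i) then γ0 i else 1
  have hγΓ : ∀ i, γ i ∈ Γ := by
    intro i
    by_cases hb : big (col i)
    · simp only [γ, if_pos hb]; exact hγ1 i
    · simp only [γ, if_neg hb]; exact Γ.one_mem
  -- no elements in the large classes
  have hpe : ∀ c₀, big c₀ → ∀ i, col i = c₀ → ∀ a x, v a ≠ Sum.inr (i, x) := by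
    intro c₀ hb i hi a x hv
    have h8 := (hbig c₀ hb).1
    have h9 : 2 ≤ oc c Γ := two_le_oc (by omega) Γ
    have h10 : 1 < Nat.card {i // col i = c₀} := by
      have : 2 * 1 ≤ oc c Γ * K := Nat.mul_le_mul h9 hK
      omega
    have : Nontrivial {i // col i = c₀} := Finite.one_lt_card_iff_nontrivial.1 h10
    obtain ⟨⟨j, hj⟩, hne⟩ := exists_ne (⟨i, hi⟩ : {i // col i = c₀})
    have h11 := (h2 i a x).1 hv
    rw [hi, ← hj] at h11
    have h12 := (h2 j a x).2 h11
    rw [hv] at h12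
    apply hne
    apply Subtype.ext
    exact (congrArg Prod.fst (Sum.inr_injective h12)).symm
  refine ⟨γ, hγΓ, ?_, ?_, ?_⟩
  · funext a
    show bi γ (v a) = v a
    rcases e : v a with y | ⟨i, x⟩
    · rfl
    · rw [bi_inr]
      by_cases hb : big (col i)
      · exact absurd e (hpe _ hb i rfl a x)
      · simp only [γ, if_neg hb]
        rfl
  · intro s
    ext z
    show bi γ z ∈ V s ↔ z ∈ V s
    rcases z with y | ⟨i, x⟩
    · rfl
    · rw [bi_inr, h4, h4]
      by_cases hb : big (col i)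
      · simp only [γ, if_pos hb]
        exact hγ2 i s x
      · simp only [γ, if_neg hb]
        rfl
  · -- the new set
    let f : ι → (T → Bool) := fun i x => decide (Sum.inr (i, γ i x) ∈ X)
    have hfb : ∀ i, big (col i) → f i = (Quotient.mk (St Γ (ps (col i))) (τ i)).out := by
      intro i hb
      rw [hγ3 i]
      funext x
      show decide (Sum.inr (i, γ i x) ∈ X) = decide (Sum.inr (i, γ0 i x) ∈ X)
      simp only [γ, if_pos hb]
    have hf : ∀ c₀, ∃ f' : {i' : κ // col' i' = c₀} → (T → Bool), ∀ τ₀,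
        Pool.Agent.Helper6.MC.Cmp K (Nat.card {a : {i : ι // col i = c₀} // f a.1 = τ₀}) (Nat.card {b // f' b = τ₀}) := by
      intro c₀
      by_cases hb : big c₀
      · have hfin : Finite (Quotient (St Γ (ps c₀))) := inferInstance
        have := Fintype.ofFinite (Quotient (St Γ (ps c₀)))
        have : Nonempty (Quotient (St Γ (ps c₀))) := ⟨Quotient.mk _ (fun _ => false)⟩
        have hc : Fintype.card (Quotient (St Γ (ps c₀))) ≤ oc c Γ := by
          rw [← Nat.card_eq_fintype_card]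
          exact card_St hm Γ (ps c₀)
        obtain ⟨g', hg'⟩ := split (A := {i : ι // col i = c₀}) (B := {i' : κ // col' i' = c₀})
          (Tr := Quotient (St Γ (ps c₀))) K
          (Or.inr ⟨(Nat.mul_le_mul_right K hc).trans (hbig c₀ hb).1, (Nat.mul_le_mul_right K hc).trans (hbig c₀ hb).2⟩)
          (fun a => Quotient.mk (St Γ (ps c₀)) (τ a.1))
        refine ⟨fun b => (g' b).out, fun τ₀ => ?_⟩
        have hfa : ∀ a : {i : ι // col i = c₀}, f a.1 = (Quotient.mk (St Γ (ps c₀)) (τ a.1)).out := by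
          rintro ⟨i, hi⟩
          subst hi
          exact hfb i hb
        by_cases hq : ∃ q : Quotient (St Γ (ps c₀)), q.out = τ₀
        · obtain ⟨q, rfl⟩ := hq
          have e1 : Nat.card {a : {i : ι // col i = c₀} // f a.1 = q.out} =
              Nat.card {a : {i : ι // col i = c₀} // Quotient.mk (St Γ (ps c₀)) (τ a.1) = q} := by
            apply Nat.card_congr
            apply Equiv.subtypeEquivRight
            intro a
            rw [hfa a]
            exact ⟨fun h => Quotient.out_injective h, fun h => by rw [h]⟩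
          have e2 : Nat.card {b : {i' : κ // col' i' = c₀} // (g' b).out = q.out} =
              Nat.card {b : {i' : κ // col' i' = c₀} // g' b = q} := by
            apply Nat.card_congr
            apply Equiv.subtypeEquivRight
            intro b
            exact ⟨fun h => Quotient.out_injective h, fun h => by rw [h]⟩
          rw [e1, e2]
          exact hg' q
        · push Not at hq
          left
          have e1 : IsEmpty {a : {i : ι // col i = c₀} // f a.1 = τ₀} := ⟨fun a => hq _ ((hfa a.1).symm.trans a.2)⟩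
          have e2 : IsEmpty {b : {i' : κ // col' i' = c₀} // (g' b).out = τ₀} := ⟨fun b => hq _ b.2⟩
          rw [Nat.card_of_isEmpty, Nat.card_of_isEmpty]
      · have hb' : Nat.card {i // col i = c₀} = Nat.card {i // col' i = c₀} := not_not.1 hb
        exact split K (Or.inl hb') (fun a => f a.1)
    choose f' hf' using hf
    let F : κ → (T → Bool) := fun i => f' (col' i) ⟨i, rfl⟩
    refine ⟨{z | (∃ y, z = Sum.inl y ∧ Sum.inl y ∈ X) ∨ ∃ i x, z = Sum.inr (i, x) ∧ F i x = true},
      C × (T → Bool), fun i => (col i, f i), fun i => (col' i, F i), fun c => pe c.1,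
      fun c => Fin.cons (fun x => c.2 x = true) (ps c.1), ?_, ?_, ?_, ?_, ?_, h6, ?_⟩
    · rintro ⟨c, τ⟩
      have e1 : {i // (col i, f i) = (c, τ)} ≃ {a : {i : ι // col i = c} // f a.1 = τ} :=
        { toFun := fun i => ⟨⟨i.1, (Prod.ext_iff.1 i.2).1⟩, (Prod.ext_iff.1 i.2).2⟩
          invFun := fun a => ⟨a.1.1, Prod.ext_iff.2 ⟨a.1.2, a.2⟩⟩
          left_inv := fun _ => rfl
          right_inv := fun _ => rfl }
      have hF : ∀ (i : κ) (hi : col' i = c), F i = f' c ⟨i, hi⟩ := by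
        intro i hi
        subst hi
        rfl
      have e2 : {i // (col' i, F i) = (c, τ)} ≃ {b : {i : κ // col' i = c} // f' c b = τ} :=
        { toFun := fun i => ⟨⟨i.1, (Prod.ext_iff.1 i.2).1⟩, by
            rw [← hF]; exact (Prod.ext_iff.1 i.2).2⟩
          invFun := fun a => ⟨a.1.1, Prod.ext_iff.2 ⟨a.1.2, by
            show F a.1.1 = τ
            rw [hF a.1.1 a.1.2]; exact a.2⟩⟩
          left_inv := fun _ => rfl
          right_inv := fun _ => rfl }
      rw [Nat.card_congr e1, Nat.card_congr e2]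
      exact hf' c τ
    · exact fun i a x => h2 i a x
    · exact fun i a x => h3 i a x
    · intro i s x
      refine Fin.cases ?_ (fun s => ?_) s
      · show bi γ (Sum.inr (i, x)) ∈ X ↔ f i x = true
        rw [bi_inr]
        exact (decide_eq_true_iff).symm
      · exact h4 i s x
    · intro i s x
      refine Fin.cases ?_ (fun s => ?_) s
      · show ((∃ y, (Sum.inr (i, x) : N ⊕ κ × T) = Sum.inl y ∧ Sum.inl y ∈ X) ∨
          ∃ i' x', (Sum.inr (i, x) : N ⊕ κ × T) = Sum.inr (i', x') ∧ F i' x' = true) ↔ F i x = true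
        constructor
        · rintro (⟨y, hy, -⟩ | ⟨i', x', he, h⟩)
          · exact absurd hy (by simp)
          · cases he
            exact h
        · intro h
          exact Or.inr ⟨i, x, rfl, h⟩
      · exact h5 i s x
    · intro s y
      refine Fin.cases ?_ (fun s => ?_) s
      · show (bi γ (Sum.inl y) ∈ X) ↔ ((∃ y', (Sum.inl y : N ⊕ κ × T) = Sum.inl y' ∧ Sum.inl y' ∈ X) ∨
          ∃ i' x', (Sum.inl y : N ⊕ κ × T) = Sum.inr (i', x') ∧ F i' x' = true)
        rw [bi_inl]
        constructor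
        · intro h
          exact Or.inl ⟨y, rfl, h⟩
        · rintro (⟨y', hy, h⟩ | ⟨i', x', he, -⟩)
          · rw [Sum.inl_injective hy]
            exact h
          · exact absurd he (by simp)
      · exact h7 s y

end

/-- the game determines the truth of monadic second-order formulas -/
theorem efG' {k m : ℕ} (φ : MFm S ar k m) : ∃ d a e : ℕ, 1 ≤ a ∧ ∀ c, m + d ≤ c →
    ∀ (T : Type) [Finite T] [Nonempty T] (Γ : Subgroup (Equiv.Perm T)) (N ι κ : Type) [Finite ι] [Finite κ] [Nonempty ι] [Nonempty κ]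
    (R : Interp S ar (N ⊕ ι × T)) (R' : Interp S ar (N ⊕ κ × T)), LI R R' → GI Γ R → GI Γ R' →
    ∀ v V v' V', Sim (a * oc c Γ ^ e) v V v' V' → (φ.Holds R v V ↔ φ.Holds R' v' V') := by
  induction φ with
  | eq i j =>
    refine ⟨0, 1, 0, le_rfl, fun c _ T _ _ Γ N ι κ _ _ _ _ R R' _ _ _ v V v' V' h => ?_⟩
    rw [pow_zero, mul_one] at h
    obtain ⟨g, hg, hv, -⟩ := h.match le_rfl
    show v i = v j ↔ v' i = v' j
    rw [hv]
    show v i = v j ↔ mp g (v i) = mp g (v j)
    refine ⟨fun h => by rw [h], fun h => ?_⟩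
    rcases e : v i with y | ⟨l, x⟩
    · rcases e' : v j with y' | ⟨l', x'⟩
      · rw [e, e'] at h
        have h' : (Sum.inl y : N ⊕ κ × T) = Sum.inl y' := h
        rw [Sum.inl_injective h']
      · rw [e, e'] at h
        exact absurd h (by simp [mp])
    · rcases e' : v j with y' | ⟨l', x'⟩
      · rw [e, e'] at h
        exact absurd h (by simp [mp])
      · rw [e, e'] at h
        have h1 : (Sum.inr (g l, x) : N ⊕ κ × T) = Sum.inr (g l', x') := h
        have h2 := Prod.ext_iff.1 (Sum.inr_injective h1)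
        have h3 : l = l' := hg ⟨i, x, e⟩ ⟨j, x', e'⟩ h2.1
        have h4 : x = x' := h2.2
        rw [h3, h4]
  | rel s f =>
    refine ⟨0, 1, 0, le_rfl, fun c _ T _ _ Γ N ι κ _ _ _ _ R R' hL _ _ v V v' V' h => ?_⟩
    rw [pow_zero, mul_one] at h
    obtain ⟨g, hg, hv, -⟩ := h.match le_rfl
    show R s (fun i => v (f i)) ↔ R' s (fun i => v' (f i))
    rw [hv]
    refine (hL s (fun i => v (f i)) g ?_).symm
    intro i hi j hj hij
    obtain ⟨a, x, ha⟩ := hi
    obtain ⟨b, y, hb⟩ := hj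
    exact hg ⟨f a, x, ha⟩ ⟨f b, y, hb⟩ hij
  | mem i j =>
    refine ⟨0, 1, 0, le_rfl, fun c _ T _ _ Γ N ι κ _ _ _ _ R R' _ _ _ v V v' V' h => ?_⟩
    rw [pow_zero, mul_one] at h
    obtain ⟨g, -, -, hm⟩ := h.match le_rfl
    exact hm i j
  | not φ ih =>
    obtain ⟨d, a, e, ha, ih⟩ := ih
    exact ⟨d, a, e, ha, fun c hc T _ _ Γ N ι κ _ _ _ _ R R' hL h1 h2 v V v' V' h =>
      not_congr (ih c hc T Γ N ι κ R R' hL h1 h2 _ _ _ _ h)⟩
  | and φ ψ ih ih' =>
    obtain ⟨d, a, e, ha, ih⟩ := ih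
    obtain ⟨d', a', e', ha', ih'⟩ := ih'
    refine ⟨max d d', max a a', max e e', ha.trans (le_max_left _ _),
      fun c hc T _ _ Γ N ι κ _ _ _ _ R R' hL h1 h2 v V v' V' h => ?_⟩
    have ho := oc_pos c Γ
    exact and_congr (ih c (by omega) T Γ N ι κ R R' hL h1 h2 _ _ _ _ (h.mono (Nat.mul_le_mul (le_max_left _ _)
        (Nat.pow_le_pow_right ho (le_max_left _ _)))))
      (ih' c (by omega) T Γ N ι κ R R' hL h1 h2 _ _ _ _ (h.mono (Nat.mul_le_mul (le_max_right _ _)
        (Nat.pow_le_pow_right ho (le_max_right _ _)))))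
  | ex φ ih =>
    obtain ⟨d, a, e, ha, ih⟩ := ih
    refine ⟨d, a + 1, e, by omega, fun c hc T _ _ Γ N ι κ _ _ _ _ R R' hL h1 h2 v V v' V' h => ?_⟩
    have ho := oc_pos c Γ
    have h3 : Sim (a * oc c Γ ^ e + 1) v V v' V' := by
      refine h.mono ?_
      have : 1 ≤ oc c Γ ^ e := Nat.one_le_pow _ _ ho
      rw [Nat.add_mul, Nat.one_mul]
      omega
    constructor
    · rintro ⟨x, hx⟩
      obtain ⟨x', hx'⟩ := h3.ex_step x
      exact ⟨x', (ih c hc T Γ N ι κ R R' hL h1 h2 _ _ _ _ hx').1 hx⟩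
    · rintro ⟨x, hx⟩
      obtain ⟨x', hx'⟩ := h3.symm.ex_step x
      exact ⟨x', (ih c hc T Γ N κ ι R' R hL.symm h2 h1 _ _ _ _ hx').1 hx⟩
  | exSet φ ih =>
    obtain ⟨d, a, e, ha, ih⟩ := ih
    refine ⟨d + 1, a, e + 1, ha, fun c hc T _ _ Γ N ι κ _ _ _ _ R R' hL h1 h2 v V v' V' h => ?_⟩
    have ho := oc_pos c Γ
    have hK : 1 ≤ a * oc c Γ ^ e := Nat.mul_le_mul ha (Nat.one_le_pow _ _ ho)
    have e0 : a * oc c Γ ^ (e + 1) = oc c Γ * (a * oc c Γ ^ e) := by ring
    rw [e0] at h
    constructor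
    · rintro ⟨X, hX⟩
      obtain ⟨γ, hγ, hv, hV, X', hX'⟩ := set_stepG (by omega) hK Γ h X
      refine ⟨X', (ih c (by omega) T Γ N ι κ R R' hL h1 h2 _ _ _ _ hX').1 ?_⟩
      have h3 := (holds_aut R (bi γ) (h1 γ hγ) φ v (Fin.cons X V)).1 (by rw [hv]; exact hX)
      have e1 : (fun s => bi γ ⁻¹' (Fin.cons X V : Fin (_ + 1) → Set (N ⊕ ι × T)) s) =
          (Fin.cons (bi γ ⁻¹' X) V : Fin (_ + 1) → Set (N ⊕ ι × T)) := by
        funext s
        refine Fin.cases rfl (fun s => hV s) s
      rw [e1] at h3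
      exact h3
    · rintro ⟨X, hX⟩
      obtain ⟨γ, hγ, hv, hV, X', hX'⟩ := set_stepG (by omega) hK Γ h.symm X
      refine ⟨X', (ih c (by omega) T Γ N κ ι R' R hL.symm h2 h1 _ _ _ _ hX').1 ?_⟩
      have h3 := (holds_aut R' (bi γ) (h2 γ hγ) φ v' (Fin.cons X V')).1 (by rw [hv]; exact hX)
      have e1 : (fun s => bi γ ⁻¹' (Fin.cons X V' : Fin (_ + 1) → Set (N ⊕ κ × T)) s) =
          (Fin.cons (bi γ ⁻¹' X) V' : Fin (_ + 1) → Set (N ⊕ κ × T)) := by
        funext s
        refine Fin.cases rfl (fun s => hV s) s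
      rw [e1] at h3
      exact h3

/-- MS1: adding and removing blocks, with a threshold from the orbits on the colourings of a block -/
theorem efG {r : ℕ} (har : ∀ s, ar s ≤ r) (φ : MFm S ar 0 0) : ∃ c a e : ℕ, 1 ≤ a ∧ ∀ (N ι κ T : Type) [Finite ι] [Finite κ] [Finite T]
    [Nonempty T] (Γ : Subgroup (Equiv.Perm T)) (R : Interp S ar (N ⊕ ι × T)), (∀ π : Equiv.Perm ι, Au R (bp π)) →
    (∀ γ ∈ Γ, ∀ (i : ι) (σ : Equiv.Perm (N ⊕ ι × T)), (∀ x, σ (Sum.inr (i, x)) = Sum.inr (i, γ x)) →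
      (∀ z, (∀ x, Sum.inr (i, x) ≠ z) → σ z = z) → Au R σ) →
    a * oc c Γ ^ e ≤ Nat.card ι → a * oc c Γ ^ e ≤ Nat.card κ → (MSat R φ ↔ MSat (ext R κ) φ) := by
  obtain ⟨d, a, e, ha, h⟩ := efG' φ
  refine ⟨d, a + r, e, by omega, fun N ι κ T _ _ _ _ Γ R hR hΓ h1 h2 => ?_⟩
  have ho := oc_pos d Γ
  have hpos : 1 ≤ oc d Γ ^ e := Nat.one_le_pow _ _ ho
  have h3 : a * oc d Γ ^ e + r ≤ (a + r) * oc d Γ ^ e := by
    rw [Nat.add_mul]
    have : r * 1 ≤ r * oc d Γ ^ e := Nat.mul_le_mul_left _ hpos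
    omega
  have h4 : 1 ≤ a * oc d Γ ^ e := Nat.mul_le_mul ha hpos
  have : Nonempty ι := by
    by_contra hcon
    have := not_nonempty_iff.1 hcon
    rw [Nat.card_of_isEmpty] at h1
    omega
  have : Nonempty κ := by
    by_contra hcon
    have := not_nonempty_iff.1 hcon
    rw [Nat.card_of_isEmpty] at h2
    omega
  have hGI : GI Γ R := GI_of hΓ
  refine h d (by omega) T Γ N ι κ R (ext R κ) (LI_ext hR κ) hGI (GI_LI har (LI_ext hR κ) hGI (by omega)) _ _ _ _ ?_
  refine ⟨Unit, fun _ => (), fun _ => (), fun _ a => a.elim0, fun _ a => a.elim0, ?_,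
    fun _ a => a.elim0, fun _ a => a.elim0, fun _ a => a.elim0, fun _ a => a.elim0,
    fun a => a.elim0, fun a => a.elim0⟩
  intro c
  right
  have e1 : Nat.card {i : ι // (fun _ => () : ι → Unit) i = c} = Nat.card ι :=
    Nat.card_congr (Equiv.subtypeUnivEquiv (fun _ => rfl))
  have e2 : Nat.card {i : κ // (fun _ => () : κ → Unit) i = c} = Nat.card κ :=
    Nat.card_congr (Equiv.subtypeUnivEquiv (fun _ => rfl))
  rw [e1, e2]
  constructor <;> omega

end Pool.Agent.Helper38.MS
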