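import Pool.Agent.Helper38.MS.Defs
import Pool.Agent.Helper89.MS.Oc
import Pool.Agent.Helper40.MC.TameM
import Pool.Agent.Helper12.MC.AP

/-!
# MS3: the border for the spectra of monadic second-order sentences, from the theorem on automorphisms
-/

set_option autoImplicit false

namespace Pool.Agent.Helper38.MS

open FirstOrder Pool.Agent.Helper20.Spectra Pool.Agent.Helper31.QD Pool.Agent.Helper38.MC
  Pool.Agent.Helper58.QD Pool.Agent.Helper40.MC Pool.Agent.Helper6.MC Pool.Agent.Helper6.EA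
open Pool.Agent.Helper14.SS (SFm)
open Pool.Agent.Helper40.MCM (SatM countM specM)

variable {S : Type} {ar : S → ℕ}

/-- MS2a -/
def StmtPumpG : Prop := ∀ (S : Type) (ar : S → ℕ) (r : ℕ), (∀ s, ar s ≤ r) → ∀ (φ : SFm (RelLang S ar) 0 0),
  ∃ c a e : ℕ, 1 ≤ a ∧ ∀ (n D t O : ℕ)
    (R : Interp S ar (Fin n)), 1 ≤ t → SatM φ R → FamG R c D t O → a * O ^ e ≤ D → ∀ j : ℕ,
    ∃ R' : Interp S ar (Fin (n + t * j)), SatM φ R'

/-- MS2b -/
def StmtRemoveG : Prop := ∀ (S : Type) (ar : S → ℕ) (r : ℕ), (∀ s, ar s ≤ r) → ∀ (φ : SFm (RelLang S ar) 0 0),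
  ∃ c a e : ℕ, 1 ≤ a ∧ ∀ (n D t O : ℕ)
    (R : Interp S ar (Fin n)), 1 ≤ t → SatM φ R → FamG R c (D + 1) t O → a * O ^ e ≤ D →
    ∃ n', n' + t = n ∧ ∃ R' : Interp S ar (Fin n'), SatM φ R' ∧
      ∀ c' D' t' O', D' * t' + r < D → FamG R' c' D' t' O' → FamG R c' D' t' O'

lemma FamG.pos {V : Type} {R : Interp S ar V} {c D t O : ℕ} (hc : 1 ≤ c) (h : FamG R c D t O) : t + 1 ≤ O := by
  obtain ⟨u, Γ, -, -, -, hO⟩ := h
  exact (lt_oc hc Γ).trans hO

lemma FamG.card_le {n c D t O : ℕ} {R : Interp S ar (Fin n)} (h : FamG R c D t O) : D * t ≤ n := by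
  obtain ⟨u, Γ, hu, -⟩ := h
  have h1 := Fintype.card_le_of_injective u hu
  rwa [Fintype.card_prod, Fintype.card_fin, Fintype.card_fin, Fintype.card_fin] at h1

/-- MS3 -/
theorem border_ofG' (hPump : StmtPumpG) (hRem : StmtRemoveG)
    (hKey : ∀ r c a e : ℕ, 1 ≤ a → 1 ≤ e → ∃ K : ℕ, ∀ (S : Type) (ar : S → ℕ), (∀ s, ar s ≤ r) → ∀ (n : ℕ)
    (R : Interp S ar (Fin n)), NoBig R c a e → Nat.card (AuG R) ≤ K ^ n)
    (S : Type) [Finite S] (ar : S → ℕ) (φ : SFm (RelLang S ar) 0 0) :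
    ∃ K : ℕ, (∀ᶠ n : ℕ in Filter.atTop, countM φ n * K ^ n ≤ n.factorial) → ∃ k, FinAP k (specM φ) := by
  classical
  have := Fintype.ofFinite S
  obtain ⟨r, hr⟩ : ∃ r, r = Finset.univ.sup ar := ⟨_, rfl⟩
  have har : ∀ s, ar s ≤ r := fun s => by
    rw [hr]
    exact Finset.le_sup (f := ar) (Finset.mem_univ s)
  obtain ⟨c₁, a₁, e₁, ha₁, hp⟩ := hPump S ar r har φ
  obtain ⟨c₂, a₂, e₂, ha₂, hrm⟩ := hRem S ar r har φ
  obtain ⟨c, hc⟩ : ∃ c, c = c₁ + c₂ + 1 := ⟨_, rfl⟩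
  obtain ⟨a, ha⟩ : ∃ a, a = max a₁ a₂ := ⟨_, rfl⟩
  obtain ⟨e, he⟩ : ∃ e, e = max e₁ e₂ := ⟨_, rfl⟩
  have ha1 : 1 ≤ a := by rw [ha]; exact ha₁.trans (le_max_left _ _)
  have hle : ∀ O, 1 ≤ O → a₁ * O ^ e₁ ≤ a * O ^ e ∧ a₂ * O ^ e₂ ≤ a * O ^ e := by
    intro O hO
    rw [ha, he]
    exact ⟨Nat.mul_le_mul (le_max_left _ _) (Nat.pow_le_pow_right hO (le_max_left _ _)),
      Nat.mul_le_mul (le_max_right _ _) (Nat.pow_le_pow_right hO (le_max_right _ _))⟩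
  obtain ⟨K, hK⟩ := hKey r c (2 * a) (e + 1) (by omega) (by omega)
  refine ⟨K + 1, fun hcount => ?_⟩
  obtain ⟨n₁, hn₁⟩ := Filter.eventually_atTop.1 hcount
  obtain ⟨n₀, hn₀⟩ : ∃ n₀, n₀ = max 1 n₁ := ⟨_, rfl⟩
  have hfam : ∀ n, n₀ ≤ n → ∀ R : Interp S ar (Fin n), SatM φ R → ∃ t O, 1 ≤ t ∧ FamG R c (2 * a * O ^ (e + 1)) t O := by
    intro n hn R hR
    by_contra hcon
    push Not at hcon
    have h0 := hK S ar har n R (fun t O ht => hcon t O ht)
    have h1 : countM φ n * (K + 1) ^ n ≤ n.factorial := hn₁ n (by omega)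
    have h2 : n.factorial ≤ countM φ n * Nat.card (AuG R) := Pool.Agent.Helper40.MCM.factorial_leM hR
    have h3 : 0 < countM φ n := by
      have h4 := n.factorial_pos.trans_le h2
      exact Nat.pos_of_mul_pos_right h4
    have h5 : (K + 1) ^ n ≤ Nat.card (AuG R) := Nat.le_of_mul_le_mul_left (h1.trans h2) h3
    have h6 : K ^ n < (K + 1) ^ n := by
      have : 1 ≤ n := by omega
      exact Nat.pow_lt_pow_left (Nat.lt_succ_self K) (by omega)
    omega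
  obtain ⟨W, hW⟩ : ∃ W, W = n₀ + r + 2 := ⟨_, rfl⟩
  have hgood : ∀ n, n₀ ≤ n → ∀ R : Interp S ar (Fin n), SatM φ R → ∃ t O, 1 ≤ t ∧ FamG R c (a * O ^ e) t O ∧
      a * O ^ e * t ≤ W := by
    intro n
    induction n using Nat.strong_induction_on with
    | _ n ih =>
      intro hn R hR
      obtain ⟨t, O, ht, hF⟩ := hfam n hn R hR
      have hO : t + 1 ≤ O := hF.pos (by omega)
      have hpow : a * O ^ e ≤ a * O ^ (e + 1) := Nat.mul_le_mul_left _ (Nat.pow_le_pow_right (by omega) (by omega))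
      have hpos : 1 ≤ a * O ^ e := Nat.mul_le_mul ha1 (Nat.one_le_pow _ _ (by omega))
      obtain ⟨D, hD⟩ : ∃ D, 2 * a * O ^ (e + 1) = D + 1 := ⟨2 * a * O ^ (e + 1) - 1, by
        have : 2 * a * O ^ (e + 1) = 2 * (a * O ^ (e + 1)) := by ring
        omega⟩
      have h2a : 2 * a * O ^ (e + 1) = 2 * (a * O ^ (e + 1)) := by ring
      have hDle : a * O ^ e ≤ D := by omega
      rw [hD] at hF
      obtain ⟨n', hn', R', hR', hlift⟩ := hrm n D t O R ht hR (hF.mono (by omega) le_rfl le_rfl)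
        ((hle O (by omega)).2.trans hDle)
      have hcard := hF.card_le
      have hDt : D * t ≤ n' := by
        have : (D + 1) * t = D * t + t := by ring
        omega
      have hFa : FamG R c (a * O ^ e) t O := hF.mono le_rfl (by omega) le_rfl
      rcases Nat.lt_or_ge n' n₀ with hlt | hge
      · refine ⟨t, O, ht, hFa, ?_⟩
        have : a * O ^ e * t ≤ D * t := Nat.mul_le_mul_right _ hDle
        omega
      · obtain ⟨t', O', ht', hF', hW'⟩ := ih n' (by omega) hge R' hR'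
        rcases Nat.lt_or_ge (W + r) D with h1 | h1
        · exact ⟨t', O', ht', hlift _ _ _ _ (by omega) hF', hW'⟩
        · refine ⟨t, O, ht, hFa, ?_⟩
          have h2 : a * O ^ e * t ≤ a * O ^ (e + 1) := by
            calc a * O ^ e * t ≤ a * O ^ e * O := Nat.mul_le_mul_left _ (by omega)
              _ = a * O ^ (e + 1) := by ring
          omega
  refine ⟨W, (Pool.Agent.Helper12.MC.stmtAP _ _).1 ⟨n₀, ?_⟩⟩
  rintro n ⟨-, R, hR⟩ hn
  obtain ⟨t, O, ht, hF, hW'⟩ := hgood n hn R hR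
  have hO : t + 1 ≤ O := hF.pos (by omega)
  have hpos : 1 ≤ a * O ^ e := Nat.mul_le_mul ha1 (Nat.one_le_pow _ _ (by omega))
  refine ⟨t, ht, ?_, fun j => ⟨by omega, ?_⟩⟩
  · have : 1 * t ≤ a * O ^ e * t := Nat.mul_le_mul_right _ hpos
    omega
  · exact hp n (a * O ^ e) t O R ht hR (hF.mono (by omega) le_rfl le_rfl) (hle O (by omega)).1 j

end Pool.Agent.Helper38.MS
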