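import Pool.Agent.Helper6.EA.Defs

/-!
# The exact border for the spectra of monadic second-order sentences: definitions
-/

set_option autoImplicit false

namespace Pool.Agent.Helper38.MS

open FirstOrder Pool.Agent.Helper20.Spectra Pool.Agent.Helper31.QD Pool.Agent.Helper38.MC
  Pool.Agent.Helper58.QD Pool.Agent.Helper40.MC Pool.Agent.Helper6.MC Pool.Agent.Helper6.EA

/-- colourings of `W` with `c` sets, up to the permutations of `H` -/
def ocS (c : ℕ) {W : Type} (H : Subgroup (Equiv.Perm W)) : Setoid (W → Fin c → Bool) where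
  r f f' := ∃ h ∈ H, f' = f ∘ h
  iseqv := by
    refine ⟨fun f => ⟨1, H.one_mem, rfl⟩, ?_, ?_⟩
    · rintro f f' ⟨h, hh, rfl⟩
      refine ⟨h⁻¹, H.inv_mem hh, ?_⟩
      funext x
      show f x = f (h (h⁻¹ x))
      rw [show h (h⁻¹ x) = x from h.apply_symm_apply x]
    · rintro f f' f'' ⟨h, hh, rfl⟩ ⟨k, hk, rfl⟩
      exact ⟨h * k, H.mul_mem hh hk, rfl⟩

/-- number of orbits of `H` on the colourings of `W` with `c` sets -/
noncomputable def oc (c : ℕ) {W : Type} (H : Subgroup (Equiv.Perm W)) : ℕ := Nat.card (Quotient (ocS c H))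

/-- the potential -/
noncomputable def Fp (c e : ℕ) {W : Type} (H : Subgroup (Equiv.Perm W)) : ℕ := Nat.card H * oc c H ^ e

/-- colourings of `V` which vanish on `A`, up to the permutations of `G` which fix `A` -/
def ocSA (c : ℕ) {V : Type} [Fintype V] (G : Subgroup (Equiv.Perm V)) (A : Finset V) :
    Setoid {f : V → Fin c → Bool // ∀ a ∈ A, f a = fun _ => false} where
  r f f' := ∃ h ∈ GS G A, f'.1 = f.1 ∘ h
  iseqv := by
    refine ⟨fun f => ⟨1, mem_GS.2 ⟨G.one_mem, fun _ _ => rfl⟩, rfl⟩, ?_, ?_⟩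
    · rintro ⟨f, hf⟩ ⟨f', hf'⟩ ⟨h, hh, h1⟩
      refine ⟨h⁻¹, GS_inv hh, ?_⟩
      show f = f' ∘ _
      have h1' : f' = f ∘ h := h1
      rw [h1']
      funext x
      show f x = f (h (h⁻¹ x))
      rw [show h (h⁻¹ x) = x from h.apply_symm_apply x]
    · rintro ⟨f, hf⟩ ⟨f', hf'⟩ ⟨f'', hf''⟩ ⟨h, hh, h1⟩ ⟨k, hk, h2⟩
      refine ⟨h * k, GS_mul hh hk, ?_⟩
      have h1' : f' = f ∘ h := h1
      have h2' : f'' = f' ∘ k := h2
      show f'' = f ∘ (h * k)
      rw [h2', h1']
      rfl

/-- number of orbits of the stabiliser of `A` on the colourings which vanish on `A` -/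
noncomputable def ocA (c : ℕ) {V : Type} [Fintype V] (G : Subgroup (Equiv.Perm V)) (A : Finset V) : ℕ :=
  Nat.card (Quotient (ocSA c G A))

/-- the potential of the stabiliser of `A` -/
noncomputable def FA (c e : ℕ) {V : Type} [Fintype V] (G : Subgroup (Equiv.Perm V)) (A : Finset V) : ℕ :=
  (GS G A).card * ocA c G A ^ e

open Classical in
/-- the permutations of `W` which give elements of `G` (identity outside of the range of `w`) -/
noncomputable def res {V W : Type} (G : Subgroup (Equiv.Perm V)) (w : W → V) (hw : Function.Injective w) :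
    Subgroup (Equiv.Perm W) :=
  G.comap (Equiv.Perm.extendDomainHom (Equiv.ofInjective w hw))

theorem mem_res {V W : Type} {G : Subgroup (Equiv.Perm V)} {w : W → V} {hw : Function.Injective w} {γ : Equiv.Perm W} :
    γ ∈ res G w hw ↔ ∀ σ : Equiv.Perm V, (∀ x, σ (w x) = w (γ x)) → (∀ z, (∀ x, w x ≠ z) → σ z = z) → σ ∈ G := by
  classical
  have h1 : ∀ x, (γ.extendDomain (Equiv.ofInjective w hw)) (w x) = w (γ x) := by
    intro x
    have := Equiv.Perm.extendDomain_apply_image γ (Equiv.ofInjective w hw) x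
    simpa using this
  have h2 : ∀ z, (∀ x, w x ≠ z) → (γ.extendDomain (Equiv.ofInjective w hw)) z = z := by
    intro z hz
    apply Equiv.Perm.extendDomain_apply_not_subtype
    rintro ⟨x, hx⟩
    exact hz x hx
  constructor
  · intro h σ h3 h4
    have h5 : γ.extendDomain (Equiv.ofInjective w hw) ∈ G := by
      unfold res at h
      rw [Subgroup.mem_comap] at h
      exact h
    have h6 : σ = γ.extendDomain (Equiv.ofInjective w hw) := by
      ext z
      by_cases hz : ∃ x, w x = z
      · obtain ⟨x, rfl⟩ := hz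
        rw [h3, h1]
      · push Not at hz
        rw [h4 z hz, h2 z hz]
    rw [h6]
    exact h5
  · intro h
    have h5 := h _ h1 h2
    unfold res
    rw [Subgroup.mem_comap]
    exact h5

/-- there is an extension -/
theorem exists_ext {V W : Type} {w : W → V} (hw : Function.Injective w) (γ : Equiv.Perm W) :
    ∃ σ : Equiv.Perm V, (∀ x, σ (w x) = w (γ x)) ∧ ∀ z, (∀ x, w x ≠ z) → σ z = z := by
  classical
  refine ⟨γ.extendDomain (Equiv.ofInjective w hw), fun x => ?_, fun z hz => ?_⟩
  · have := Equiv.Perm.extendDomain_apply_image γ (Equiv.ofInjective w hw) x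
    simpa using this
  · apply Equiv.Perm.extendDomain_apply_not_subtype
    rintro ⟨x, hx⟩
    exact hz x hx

/-- the structure on `W` with all the elements outside of the range of `w` as parameters -/
def Rel {S : Type} {ar : S → ℕ} {V W : Type} (R : Interp S ar V) (w : W → V) :
    Interp (Σ s : S, (Fin (ar s) → Option {a : V // a ∉ Set.range w})) (fun s => ar s.1) W :=
  fun s y => R s.1 (fun i => (s.2 i).elim (w (y i)) Subtype.val)

/-- a family of `D` blocks of `t` points, all permutations of the blocks are automorphisms, and a group `Γ` acts by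
automorphisms inside of each block, with at most `O` orbits on the colourings of a block -/
def FamG {S : Type} {ar : S → ℕ} {V : Type} (R : Interp S ar V) (c D t O : ℕ) : Prop :=
  ∃ (u : Fin D × Fin t → V) (Γ : Subgroup (Equiv.Perm (Fin t))), Function.Injective u ∧
    (∀ (π : Equiv.Perm (Fin D)) (σ : Equiv.Perm V), (∀ i x, σ (u (i, x)) = u (π i, x)) →
      (∀ z, (∀ p, u p ≠ z) → σ z = z) → Au R σ) ∧
    (∀ γ ∈ Γ, ∀ (i : Fin D) (σ : Equiv.Perm V), (∀ x, σ (u (i, x)) = u (i, γ x)) →
      (∀ z, (∀ x, u (i, x) ≠ z) → σ z = z) → Au R σ) ∧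
    oc c Γ ≤ O

/-- no large family -/
def NoBig {S : Type} {ar : S → ℕ} {V : Type} (R : Interp S ar V) (c a e : ℕ) : Prop :=
  ∀ t O, 1 ≤ t → ¬ FamG R c (a * O ^ e) t O

theorem oc_pos (c : ℕ) {W : Type} [Finite W] (H : Subgroup (Equiv.Perm W)) : 1 ≤ oc c H := by
  unfold oc
  have : Nonempty (Quotient (ocS c H)) := ⟨Quotient.mk _ (fun _ _ => false)⟩
  exact Nat.card_pos

theorem ocA_pos (c : ℕ) {V : Type} [Fintype V] (G : Subgroup (Equiv.Perm V)) (A : Finset V) : 1 ≤ ocA c G A := by
  unfold ocA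
  have : Nonempty (Quotient (ocSA c G A)) := ⟨Quotient.mk _ ⟨fun _ _ => false, fun _ _ => rfl⟩⟩
  exact Nat.card_pos

end Pool.Agent.Helper38.MS
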